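import Pool.Agent.Q216.RH.Prob

set_option autoImplicit false

/-! # The density of the record-indicator harmonic series is discontinuous inside `(1, ∞)`

`I k` stands for the indicator `I_{k+1}` of the problem: the `I k` are independent, with values in
`{0, 1}`, and `I k = 1` with probability `1 / (k + 1)`. The sum `S = ∑_k I k / (k + 1)` is the
random series `∑_{n ≥ 1} I_n / n` of the problem and its law `μ` is `P.map S`. A version of the
density of `μ` is a function `f` with `μ = f dx`. -/

namespace Pool.Agent.Results.MP_37d573_pr.NoContinuousVersion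

open MeasureTheory ProbabilityTheory Set

/-- Every version `f` of the density of the law of `S = ∑_{n ≥ 1} I_n / n` is discontinuous at some
point of the open interval `(1, ∞)`. -/
theorem result {Ω : Type*} [MeasurableSpace Ω] (P : Measure Ω) [IsProbabilityMeasure P]
    (I : ℕ → Ω → ℝ) (hmeas : ∀ k, Measurable (I k)) (hval : ∀ k ω, I k ω = 0 ∨ I k ω = 1)
    (hprob : ∀ k : ℕ, P {ω | I k ω = 1} = ENNReal.ofReal (1 / ((k : ℝ) + 1)))
    (hindep : iIndepFun I P) (f : ℝ → ℝ)
    (hf : P.map (fun ω => ∑' k : ℕ, I k ω / ((k : ℝ) + 1)) =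
      volume.withDensity (fun x => ENNReal.ofReal (f x))) :
    ∃ x, 1 < x ∧ ¬ ContinuousAt f x := by
  by_contra hcon
  push Not at hcon
  have h : Pool.Agent.Q216.RH.Model P I := ⟨hmeas, hval, hprob, hindep⟩
  -- the series is `V univ`
  have hS : (fun ω => ∑' k : ℕ, I k ω / ((k : ℝ) + 1)) = Pool.Agent.Q216.RH.V I univ := by
    funext ω
    unfold Pool.Agent.Q216.RH.V Pool.Agent.Q216.RH.W
    simp only [indicator_univ]
    rw [ENNReal.tsum_toReal_eq (fun _ => ENNReal.ofReal_ne_top)]
    refine tsum_congr fun k => ?_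
    rw [ENNReal.toReal_ofReal (div_nonneg (Pool.Agent.Q216.RH.nonneg h k ω) (by positivity))]
  rw [hS] at hf
  -- `S = 1 + T` almost surely
  have hsplit : ∀ᵐ ω ∂P, Pool.Agent.Q216.RH.V I univ ω = 1 + Pool.Agent.Q216.RH.V I (Ici 1) ω := by
    have h1 := Pool.Agent.Q216.RH.V_split h (mem_univ 0)
    have h2 : ∀ᵐ ω ∂P, I 0 ω = 1 := by
      have h3 : P {ω | I 0 ω = 1}ᶜ = 0 := by
        rw [prob_compl_eq_one_sub (Pool.Agent.Q216.RH.mset h 0), hprob]
        simp
      exact h3
    have h4 : (univ \ {0} : Set ℕ) = Ici 1 := by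
      ext n
      simp only [mem_sdiff, mem_univ, true_and, mem_singleton_iff, mem_Ici]
      omega
    rw [h4] at h1
    filter_upwards [h1, h2] with ω h1 h2
    rw [h1, h2]
    simp
  -- the law of `T`
  have hlaw : ∀ A : Set ℝ, MeasurableSet A → P.map (Pool.Agent.Q216.RH.V I (Ici 1)) A =
      volume.withDensity (fun x => ENNReal.ofReal (f x)) ((fun x => x - 1) ⁻¹' A) := by
    intro A hA
    rw [← hf, Measure.map_apply (Pool.Agent.Q216.RH.meas_V' h _) hA,
      Measure.map_apply (Pool.Agent.Q216.RH.meas_V' h _) (hA.preimage (measurable_sub_const 1))]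
    refine measure_congr ?_
    filter_upwards [hsplit] with ω hω
    refine propext ?_
    show Pool.Agent.Q216.RH.V I (Ici 1) ω ∈ A ↔ Pool.Agent.Q216.RH.V I univ ω - 1 ∈ A
    rw [hω, add_sub_cancel_left]
  have hzero : P (Pool.Agent.Q216.RH.V I (Ici 1) ⁻¹' {0}) = 0 := by
    have h1 := hlaw {0} (measurableSet_singleton 0)
    rw [Measure.map_apply (Pool.Agent.Q216.RH.meas_V' h _) (measurableSet_singleton 0)] at h1
    rw [h1]
    refine withDensity_absolutelyContinuous volume _ ?_
    have h2 : (fun x : ℝ => x - 1) ⁻¹' {0} = {1} := by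
      ext x; simp only [mem_preimage, mem_singleton_iff]; constructor <;> intro h <;> linarith
    rw [h2]
    exact Real.volume_singleton
  have hnonneg : ∀ J ω, 0 ≤ Pool.Agent.Q216.RH.V I J ω := fun J ω => ENNReal.toReal_nonneg
  have : IsProbabilityMeasure (P.map (Pool.Agent.Q216.RH.V I (Ici 1))) :=
    Measure.isProbabilityMeasure_map (Pool.Agent.Q216.RH.meas_V' h _).aemeasurable
  have : IsProbabilityMeasure (P.map (Pool.Agent.Q216.RH.V I (Ici 1 \ {1}))) :=
    Measure.isProbabilityMeasure_map (Pool.Agent.Q216.RH.meas_V' h _).aemeasurable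
  refine Pool.Agent.Q216.RH.analytic (P.map (Pool.Agent.Q216.RH.V I (Ici 1)))
    (P.map (Pool.Agent.Q216.RH.V I (Ici 1 \ {1}))) (fun x => max (f (x + 1)) 0)
    (fun x => le_max_right _ _) ?_ ?_ ?_ ?_ (Pool.Agent.Q216.RH.f1 h) ?_
    (Pool.Agent.Q216.RH.f3 h)
  · intro x hx
    have h1 : ContinuousAt f (x + 1) := hcon (x + 1) (by linarith)
    have h2 : ContinuousAt (fun x : ℝ => f (x + 1)) x :=
      ContinuousAt.comp (f := fun x : ℝ => x + 1) (g := f) h1 (by fun_prop)
    exact h2.max continuousAt_const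
  · intro a b _ _
    rw [hlaw _ measurableSet_Ioo]
    have h1 : (fun x : ℝ => x - 1) ⁻¹' Ioo a b = (fun x : ℝ => x + 1) '' Ioo a b := by
      ext x
      simp only [mem_preimage, mem_image]
      constructor
      · intro hx; exact ⟨x - 1, hx, by ring⟩
      · rintro ⟨y, hy, rfl⟩; simpa using hy
    have h2 : MeasurableSet ((fun x : ℝ => x - 1) ⁻¹' Ioo a b) :=
      measurableSet_Ioo.preimage (measurable_sub_const 1)
    rw [withDensity_apply _ h2, h1]
    have h3 : MeasurePreserving (fun x : ℝ => x + 1) volume volume :=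
      measurePreserving_add_right volume 1
    have h4 : MeasurableEmbedding (fun x : ℝ => x + 1) := measurableEmbedding_addRight 1
    rw [← h3.setLIntegral_comp_emb h4]
    refine lintegral_congr fun x => ?_
    simp [ENNReal.ofReal, Real.toNNReal]
  · rw [Measure.map_apply (Pool.Agent.Q216.RH.meas_V' h _) measurableSet_Iic]
    refine measure_mono_null (fun ω hω => ?_) hzero
    exact le_antisymm hω (hnonneg _ ω)
  · rw [Measure.map_apply (Pool.Agent.Q216.RH.meas_V' h _) measurableSet_Iio]
    have h1 : Pool.Agent.Q216.RH.V I (Ici 1 \ {1}) ⁻¹' Iio 0 = ∅ := by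
      ext ω
      simp only [mem_preimage, mem_Iio, mem_empty_iff_false, iff_false, not_lt]
      exact hnonneg _ ω
    rw [h1, measure_empty]
  · exact fun N hN => Pool.Agent.Q216.RH.f2 h N hN hzero

end Pool.Agent.Results.MP_37d573_pr.NoContinuousVersion
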